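import Pool.Agent.Q255.EP.Stm
import Pool.Agent.Q190.IR.Tilt

/-!
# Project EP (helper255), S_LAW: independent biased signs, entropy and deviations (helper68)
-/

set_option autoImplicit false

namespace Pool.Agent.Q68.EP

open Filter Topology MeasureTheory ProbabilityTheory Pool.Agent.Q255.IC Pool.Agent.Q255.IR
open Pool.Agent.Q190.IR.Tilt
open scoped ENNReal

theorem mul_log_le {t : ℝ} (ht : 0 ≤ t) : t * Real.log t ≤ t * (t - 1) := by
  rcases ht.eq_or_lt with rfl | h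
  · simp
  · exact mul_le_mul_of_nonneg_left (Real.log_le_sub_one_of_pos h) ht

theorem nml_half (t : ℝ) : Real.negMulLog (t / 2) = -(t * Real.log t) / 2 + t * Real.log 2 / 2 := by
  rw [div_eq_mul_inv, Real.negMulLog_mul]
  unfold Real.negMulLog
  rw [Real.log_inv]
  ring

theorem binEnt2 {u : ℝ} (h : |u| ≤ 1) : Real.log 2 - Real.binEntropy ((1 + u) / 2) ≤ u ^ 2 := by
  have h' := abs_le.1 h
  rw [Real.binEntropy_eq_negMulLog_add_negMulLog_one_sub]
  have e3 : 1 - (1 + u) / 2 = (1 - u) / 2 := by ring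
  rw [e3, nml_half, nml_half]
  have h1 := mul_log_le (show 0 ≤ 1 + u by linarith [h'.1])
  have h2 := mul_log_le (show 0 ≤ 1 - u by linarith [h'.2])
  nlinarith

theorem V_one (n : ℕ) : V (fun _ => 1) n = n := by
  unfold V
  simp

theorem dev_half (u : ℕ → ℝ) (h : ∀ k, |u k| ≤ 1) (c : ℝ) (hc : |c| = 1) {ε : ℝ} (hε : 0 < ε) :
    ∀ᵐ ω ∂(Measure.infinitePi (fun k : ℕ => one (u k))),
      ∀ᶠ n : ℕ in atTop, ∑ k ∈ Finset.range n, xi (fun _ => 1) u c k ω < (n : ℝ) ^ (1 / 2 + ε) := by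
  have := fun k => one_prob (h k)
  have key : ∀ᵐ ω ∂(Measure.infinitePi (fun k : ℕ => one (u k))), ∀ᶠ j : ℕ in atTop,
      ω ∉ {ω : ℕ → Bool | ∃ z ≤ 2 ^ (j + 1), ((2 : ℝ) ^ j) ^ (1 / 2 + ε) ≤
        ∑ k ∈ Finset.range z, xi (fun _ => 1) u c k ω} := by
    apply ae_eventually_notMem
    have hb : ∀ j : ℕ, (Measure.infinitePi (fun k : ℕ => one (u k)))
        {ω : ℕ → Bool | ∃ z ≤ 2 ^ (j + 1), ((2 : ℝ) ^ j) ^ (1 / 2 + ε) ≤
          ∑ k ∈ Finset.range z, xi (fun _ => 1) u c k ω} ≤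
        ENNReal.ofReal (2 * (((2 : ℝ) ^ (2 * ε))⁻¹) ^ j) := by
      intro j
      rw [← ofReal_measureReal]
      apply ENNReal.ofReal_le_ofReal
      refine (maxi (fun _ => 1) u h c hc (2 ^ (j + 1)) (by positivity)).trans ?_
      rw [V_one]
      have h1 : (((2 : ℝ) ^ j) ^ (1 / 2 + ε)) ^ 2 = (2 : ℝ) ^ j * ((2 : ℝ) ^ (2 * ε)) ^ j := by
        have hp : (0 : ℝ) < (2 : ℝ) ^ j := by positivity
        rw [← Real.rpow_natCast (((2 : ℝ) ^ j) ^ (1 / 2 + ε)) 2, ← Real.rpow_mul hp.le]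
        have e1 : (1 / 2 + ε) * ((2 : ℕ) : ℝ) = 1 + 2 * ε := by
          push_cast
          ring
        rw [e1, Real.rpow_add hp, Real.rpow_one]
        congr 1
        rw [← Real.rpow_natCast (2 : ℝ) j, ← Real.rpow_natCast ((2 : ℝ) ^ (2 * ε)) j,
          ← Real.rpow_mul (by norm_num), ← Real.rpow_mul (by norm_num)]
        congr 1
        ring
      rw [h1, inv_pow]
      push_cast
      rw [pow_succ]
      have hp : (0 : ℝ) < (2 : ℝ) ^ j := by positivity
      have hq : (0 : ℝ) < ((2 : ℝ) ^ (2 * ε)) ^ j := by positivity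
      apply le_of_eq
      field_simp
    refine ne_top_of_le_ne_top ?_ (ENNReal.tsum_le_tsum hb)
    have hs : Summable (fun j : ℕ => 2 * (((2 : ℝ) ^ (2 * ε))⁻¹) ^ j) := by
      refine (summable_geometric_of_lt_one (by positivity) ?_).mul_left _
      exact inv_lt_one_of_one_lt₀ (Real.one_lt_rpow (by norm_num) (by positivity))
    exact hs.tsum_ofReal_ne_top
  filter_upwards [key] with ω hω
  obtain ⟨J, hJ⟩ := eventually_atTop.1 hω
  filter_upwards [eventually_ge_atTop (2 ^ J)] with n hn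
  have hn1 : 1 ≤ n := le_trans Nat.one_le_two_pow hn
  obtain ⟨j, hj1, hj2⟩ := exists_nat_pow_near (show (1 : ℝ) ≤ n by exact_mod_cast hn1)
    (by norm_num : (1 : ℝ) < 2)
  have hjJ : J ≤ j := by
    have : (2 : ℝ) ^ J < 2 ^ (j + 1) := lt_of_le_of_lt (by exact_mod_cast hn) hj2
    have := (pow_lt_pow_iff_right₀ (by norm_num : (1 : ℝ) < 2)).1 this
    omega
  have h1 := hJ j hjJ
  push Not at h1
  have h2 := h1 n (by
    have : (n : ℝ) ≤ ((2 ^ (j + 1) : ℕ) : ℝ) := by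
      push_cast
      exact hj2.le
    exact_mod_cast this)
  exact lt_of_lt_of_le h2 (Real.rpow_le_rpow (by positivity) hj1 (by positivity))

theorem law_stm : Pool.Agent.Q255.EP.S_LAW := by
  intro d hd
  obtain ⟨u, hu⟩ : ∃ u : ℕ → ℝ, ∀ k, u k = -d k := ⟨fun k => -d k, fun _ => rfl⟩
  have hu1 : ∀ k, |u k| ≤ 1 := fun k => by rw [hu, abs_neg]; exact hd k
  have := fun k => one_prob (hu1 k)
  refine ⟨Measure.infinitePi (fun k : ℕ => one (u k)), inferInstance, ?_, ?_⟩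
  · intro n
    unfold D entropy
    have e1 : ∑ s : Fin n → Bool, Real.negMulLog ((Measure.infinitePi (fun k : ℕ => one (u k))).real
        {ω | ∀ k : Fin n, ω k = s k}) = ∑ k : Fin n, Real.binEntropy ((1 + u k) / 2) := by
      rw [← ent_wgt n (fun k : Fin n => u k)]
      exact Finset.sum_congr rfl (fun s _ => by rw [law hu1])
    rw [e1]
    have e2 : (n : ℝ) * Real.log 2 = ∑ _k : Fin n, Real.log 2 := by
      rw [Finset.sum_const, Finset.card_univ, Fintype.card_fin, nsmul_eq_mul]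
    rw [e2, ← Finset.sum_sub_distrib]
    have hfin : ∑ k : Fin n, (Real.log 2 - Real.binEntropy ((1 + u (k : ℕ)) / 2)) ≤
        ∑ k : Fin n, d (k : ℕ) ^ 2 := Finset.sum_le_sum fun k _ => by
      have := binEnt2 (hu1 (k : ℕ))
      rwa [hu, neg_sq, ← hu] at this
    refine hfin.trans (le_of_eq ?_)
    exact Fin.sum_univ_eq_sum_range (fun k => d k ^ 2) n
  · have hk : ∀ q : ℕ, (0 : ℝ) < 1 / ((q : ℝ) + 1) := fun q => by positivity
    have h1 : ∀ᵐ ω ∂(Measure.infinitePi (fun k : ℕ => one (u k))), ∀ q : ℕ,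
        ∀ᶠ n : ℕ in atTop, ∑ k ∈ Finset.range n, xi (fun _ => 1) u 1 k ω < (n : ℝ) ^ (1 / 2 + 1 / ((q : ℝ) + 1)) :=
      ae_all_iff.2 fun q => dev_half u hu1 1 (by norm_num) (hk q)
    have h2 : ∀ᵐ ω ∂(Measure.infinitePi (fun k : ℕ => one (u k))), ∀ q : ℕ,
        ∀ᶠ n : ℕ in atTop, ∑ k ∈ Finset.range n, xi (fun _ => 1) u (-1) k ω < (n : ℝ) ^ (1 / 2 + 1 / ((q : ℝ) + 1)) :=
      ae_all_iff.2 fun q => dev_half u hu1 (-1) (by norm_num) (hk q)
    filter_upwards [h1, h2] with ω h1 h2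
    intro ε hε
    obtain ⟨q, hq⟩ := exists_nat_one_div_lt hε
    obtain ⟨N, hN⟩ := eventually_atTop.1 ((h1 q).and (h2 q))
    obtain ⟨M, hM⟩ : ∃ M : ℝ, M = ∑ n ∈ Finset.range N, |∑ k ∈ Finset.range n, (sg ω k - d k)| := ⟨_, rfl⟩
    have hM0 : 0 ≤ M := by rw [hM]; exact Finset.sum_nonneg fun _ _ => abs_nonneg _
    refine ⟨M + 1, fun n => ?_⟩
    have hn1 : (1 : ℝ) ≤ (n : ℝ) + 1 := by
      have : (0 : ℝ) ≤ n := Nat.cast_nonneg n
      linarith
    have hpow : (1 : ℝ) ≤ ((n : ℝ) + 1) ^ (1 / 2 + ε) := Real.one_le_rpow hn1 (by positivity)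
    by_cases hnN : n < N
    · have h3 : |∑ k ∈ Finset.range n, (sg ω k - d k)| ≤ M := by
        rw [hM]
        exact Finset.single_le_sum (f := fun n => |∑ k ∈ Finset.range n, (sg ω k - d k)|)
          (fun _ _ => abs_nonneg _) (Finset.mem_range.2 hnN)
      nlinarith
    · obtain ⟨h4, h5⟩ := hN n (not_lt.1 hnN)
      have e0 : ∑ k ∈ Finset.range n, xi (fun _ => 1) u 1 k ω = ∑ k ∈ Finset.range n, (sg ω k - d k) := by
        apply Finset.sum_congr rfl
        intro k _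
        unfold xi sg
        rw [hu]
        ring
      have e1 : ∑ k ∈ Finset.range n, xi (fun _ => 1) u (-1) k ω = -∑ k ∈ Finset.range n, (sg ω k - d k) := by
        rw [← Finset.sum_neg_distrib]
        apply Finset.sum_congr rfl
        intro k _
        unfold xi sg
        rw [hu]
        ring
      rw [e0] at h4
      rw [e1] at h5
      have h6 : |∑ k ∈ Finset.range n, (sg ω k - d k)| < (n : ℝ) ^ (1 / 2 + 1 / ((q : ℝ) + 1)) :=
        abs_lt.2 ⟨by linarith, h4⟩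
      have h7 : (n : ℝ) ^ (1 / 2 + 1 / ((q : ℝ) + 1)) ≤ ((n : ℝ) + 1) ^ (1 / 2 + ε) := by
        refine (Real.rpow_le_rpow (Nat.cast_nonneg n) (by linarith : (n : ℝ) ≤ (n : ℝ) + 1)
          (by have := hk q; linarith)).trans ?_
        exact Real.rpow_le_rpow_of_exponent_le hn1 (by linarith)
      nlinarith

end Pool.Agent.Q68.EP
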